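import Pool.Agent.LAT.StmtsW

/-!
# Row RED of squad LAT (MP_0fc649_lc): parity-P is closed under many-one reductions
-/

set_option autoImplicit false

namespace Pool.Agent.LAT.H62

open Turing Computability Pool.Agent.UT.Num Pool.Agent.H2XG Pool.Agent.PAR
open Pool.Agent.Common_CookLevin (PolyFn polyFn_flatMap)
open Pool.Agent.Helper53_CookLevin (size)

/-- the bit of a letter -/
def gb : K → Word := fun c => match c with
  | .a b => [b]
  | _ => []

theorem gb_map (w : Word) : (w.map K.a).flatMap gb = w := by
  rw [List.flatMap_map]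
  induction w with
  | nil => rfl
  | cons b w ih => rw [List.flatMap_cons, ih]; rfl

theorem pt_word {f : Word → Word} (hf : PolyWord f) :
    PT (fun w : List K => (f (w.flatMap gb)).map K.a) := by
  have h1 : PolyFn (fun w : List K => w.flatMap gb) := polyFn_flatMap _
  have h2 : PolyFn (fun w : List Bool => w.flatMap fun b => [K.a b]) := polyFn_flatMap _
  have h3 : PolyFn (fun w : List K => (f (w.flatMap gb)).flatMap fun b => [K.a b]) :=
    (h1.comp hf).comp h2
  have e : (fun w : List K => (f (w.flatMap gb)).map K.a) =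
      fun w : List K => (f (w.flatMap gb)).flatMap fun b => [K.a b] := by
    funext w
    rw [List.map_eq_flatMap]
  rw [e]
  exact h3

theorem fpw_call {f : Word → Word} (hf : PolyWord f) {m : ℕ} {A : (Fin m → List K) → Word}
    (hA : FPW m A) : FPW m (fun ρ => f (A ρ)) := by
  have h := FP.call (pt_word hf) hA
  refine FP.congr h fun ρ => ?_
  beta_reduce
  rw [gb_map]

theorem poly_mono (q : Polynomial ℕ) {a b : ℕ} (h : a ≤ b) : q.eval a ≤ q.eval b := by
  rw [Polynomial.eval_eq_sum, Polynomial.eval_eq_sum]
  exact Finset.sum_le_sum fun i _ => Nat.mul_le_mul_left _ (Nat.pow_le_pow_left h i)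

theorem red : RedStmt := by
  intro L K' f hf hK hLK
  obtain ⟨V, q, hV, hq⟩ := hK
  obtain ⟨b, hb⟩ := FP.bound (m := 1) (FP.call (pt_word hf) (FP.var 0))
  have hb' : ∀ x : Word, (f x).length ≤ b.eval x.length := by
    intro x
    have h1 := hb ![x.map K.a]
    have h2 : size ![x.map K.a] = x.length := by
      unfold size
      simp
    rw [h2] at h1
    simpa [gb_map] using h1
  let g : Word → Word → Bool := fun x y => V (f x, y) && decide (y.length ≤ q.eval (f x).length)
  have hg : PolyPair (fun z => g z.1 z.2) := by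
    refine polyPair_of' fun m A B hA hB => ?_
    exact (FPB.call2 hV (fpw_call hf hA) hB).and
      (FPB.leN hB.len ((fpw_call hf hA).len.poly q))
  refine ⟨fun z => g z.1 z.2, q.comp b, hg, fun x => ?_⟩
  have key : witnesses (fun z => g z.1 z.2) (q.comp b) x = witnesses V q (f x) := by
    ext y
    constructor
    · rintro ⟨_, h2⟩
      simp only [g, Bool.and_eq_true, decide_eq_true_eq] at h2
      exact ⟨h2.2, h2.1⟩
    · rintro ⟨h1, h2⟩
      refine ⟨?_, ?_⟩
      · rw [Polynomial.eval_comp]
        exact h1.trans (poly_mono q (hb' x))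
      · simp only [g, Bool.and_eq_true, decide_eq_true_eq]
        exact ⟨h2, h1⟩
  rw [key, hLK]
  exact hq (f x)

end Pool.Agent.LAT.H62
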