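import Pool.Agent.LAT.StmtsC

/-!
# Row EXB of squad LAT (MP_0fc649_lc): extension of a basis of a saturated subgroup
-/

set_option autoImplicit false

namespace Pool.Agent.LAT.H62

theorem exb : ExbStmt := by
  intro m N M hNM hsat
  let W : Submodule ℤ M := N.submoduleOf M
  have hW : ∀ w : M, w ∈ W ↔ (w : Fin m → ℤ) ∈ N := fun w => Iff.rfl
  have htf : Module.IsTorsionFree ℤ (M ⧸ W) := by
    refine Module.IsTorsionFree.of_smul_eq_zero ?_
    intro k x hx
    induction x using Submodule.Quotient.induction_on with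
    | H w =>
      by_cases hk : k = 0
      · exact Or.inl hk
      right
      rw [← Submodule.Quotient.mk_smul, Submodule.Quotient.mk_eq_zero, hW] at hx
      rw [Submodule.Quotient.mk_eq_zero, hW]
      exact hsat w w.2 k hk hx
  let bN := Module.finBasis ℤ N
  let bW := bN.map (Submodule.submoduleOfEquivOfLe hNM).symm
  let bQ := Module.finBasis ℤ (M ⧸ W)
  let b := Module.Basis.sumQuot bW bQ
  have hb1 : ∀ i, ((b (Sum.inl i) : M) : Fin m → ℤ) = (bN i : Fin m → ℤ) := by
    intro i
    show ((Module.Basis.sumQuot bW bQ (Sum.inl i) : M) : Fin m → ℤ) = _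
    rw [Module.Basis.sumQuot_inl]
    rfl
  have he : (Sum.elim (fun i => (bN i : Fin m → ℤ))
      (fun j => ((b (Sum.inr j) : M) : Fin m → ℤ))) = M.subtype ∘ b := by
    funext x
    rcases x with i | j
    · exact (hb1 i).symm
    · rfl
  refine ⟨Module.finrank ℤ N, Module.finrank ℤ (M ⧸ W), fun i => (bN i : Fin m → ℤ),
    fun j => ((b (Sum.inr j) : M) : Fin m → ℤ), ?_, ?_, ?_, rfl, ?_⟩
  · rw [he]
    exact b.linearIndependent.map' M.subtype (Submodule.ker_subtype M)
  · have h1 : Set.range (fun i => (bN i : Fin m → ℤ)) = N.subtype '' Set.range bN := by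
      rw [← Set.range_comp]
      rfl
    rw [h1, ← Submodule.map_span, bN.span_eq, Submodule.map_top, Submodule.range_subtype]
  · rw [he, Set.range_comp, ← Submodule.map_span, b.span_eq, Submodule.map_top,
      Submodule.range_subtype]
  · have h1 := Module.finrank_eq_card_basis b
    rw [Fintype.card_sum, Fintype.card_fin, Fintype.card_fin] at h1
    exact h1.symm

end Pool.Agent.LAT.H62
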